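import Mathlib
import Pool.Agent.H56.UniversalPairs

namespace Pool.Agent.Results.MP_2ce53a_nt.OnlyIfUpToOne

open Pool.Agent.H56.UniversalPairs

/-- The list of pairs of the conjecture. -/
def L : List (ℕ × ℕ) :=
  [(3, 3), (3, 4), (3, 5), (3, 6), (3, 7), (3, 8), (3, 9), (3, 10), (3, 11), (3, 12),
  (3, 13), (3, 14), (3, 15), (3, 16), (3, 17), (3, 18), (3, 19), (3, 20), (3, 22),
  (3, 24), (3, 25), (3, 28), (3, 29), (3, 30), (3, 32), (3, 37), (4, 4), (4, 5), (4, 6),
  (4, 7), (4, 8), (4, 9), (4, 10), (4, 11), (4, 12), (4, 13), (4, 15), (4, 16), (4, 18),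
  (4, 20), (4, 21), (4, 22), (4, 23), (4, 24), (4, 25), (4, 27), (4, 28), (4, 31),
  (4, 33), (4, 34), (5, 6), (5, 7), (5, 8), (5, 9), (5, 10), (5, 11), (5, 12), (5, 20),
  (6, 7), (6, 8), (6, 9), (6, 10), (7, 9), (7, 11), (8, 10), (9, 11)]

/-- The further pairs. -/
def E : List (ℕ × ℕ) :=
  [(3, 57)]

/-- Witnesses: `(j, k, n, B)` where `n` is not represented for `(j, k)` and `B ^ 2 > 2 n`. -/
def T : List (ℕ × ℕ × ℕ × ℕ) :=
  [(3, 21, 490, 32), (3, 23, 65, 12), (3, 26, 65, 12), (3, 27, 109, 15), (3, 31, 65, 12),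
  (3, 33, 75, 13), (3, 34, 65, 12), (3, 35, 199, 20), (3, 36, 75, 13), (3, 38, 439, 30),
  (3, 39, 923, 43), (3, 40, 109, 15), (3, 41, 65, 12), (3, 42, 286, 24), (3, 43, 839, 41),
  (3, 44, 75, 13), (3, 45, 109, 15), (3, 46, 65, 12), (3, 47, 227, 22), (3, 48, 134, 17),
  (3, 49, 252, 23), (3, 50, 109, 15), (3, 51, 65, 12), (3, 52, 134, 17), (3, 53, 150, 18),
  (3, 54, 273, 24), (3, 55, 273, 24), (3, 56, 65, 12), (3, 58, 285, 24), (3, 59, 134, 17),
  (3, 60, 109, 15), (3, 61, 75, 13), (3, 62, 571, 34), (3, 63, 319, 26), (3, 64, 150, 18),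
  (3, 65, 109, 15), (4, 14, 34, 9), (4, 17, 46, 10), (4, 19, 243, 23), (4, 26, 46, 10),
  (4, 29, 234, 22), (4, 30, 414, 29), (4, 32, 399, 29), (5, 5, 33, 9), (5, 13, 68, 12),
  (5, 14, 60, 11), (5, 15, 33, 9), (5, 16, 84, 13), (5, 17, 81, 13), (5, 18, 154, 18),
  (5, 19, 65, 12), (5, 21, 81, 13), (5, 22, 33, 9), (5, 23, 55, 11), (5, 24, 33, 9),
  (5, 25, 55, 11), (5, 26, 65, 12), (5, 27, 55, 11), (5, 28, 60, 11), (5, 29, 33, 9),
  (5, 30, 55, 11), (5, 31, 154, 18), (5, 32, 60, 11), (5, 33, 65, 12), (6, 6, 10, 5),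
  (7, 7, 11, 5), (7, 8, 32, 9), (7, 10, 38, 9), (8, 8, 19, 7), (8, 9, 38, 9), (8, 11, 25, 8),
  (8, 12, 50, 11), (8, 13, 32, 9), (8, 14, 18, 7), (8, 15, 19, 7), (8, 16, 69, 12),
  (8, 17, 361, 27), (8, 18, 32, 9), (9, 9, 43, 10), (9, 10, 158, 18), (9, 12, 96, 14),
  (9, 13, 33, 9), (9, 14, 18, 7), (9, 15, 19, 7), (9, 16, 20, 7), (9, 17, 34, 9), (9, 18, 38, 9),
  (10, 10, 19, 7), (10, 11, 20, 7), (10, 12, 21, 7), (10, 13, 31, 8), (10, 14, 38, 9),
  (10, 15, 19, 7), (10, 16, 20, 7), (10, 17, 21, 7), (10, 18, 38, 9), (10, 19, 38, 9)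
  ]

set_option maxRecDepth 100000 in
lemma tab : tableOK 5 T = true := by decide +kernel

set_option maxRecDepth 100000 in
lemma big : chkJ 5 10 5 = true := by decide +kernel

set_option maxRecDepth 100000 in
lemma k3 : chkK 5 3 65 12 = true := by decide +kernel

set_option maxRecDepth 100000 in
lemma c3 : cover (L ++ E) T 3 65 = true := by decide +kernel

set_option maxRecDepth 100000 in
lemma k4 : chkK 5 4 34 9 = true := by decide +kernel

set_option maxRecDepth 100000 in
lemma c4 : cover (L ++ E) T 4 34 = true := by decide +kernel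

set_option maxRecDepth 100000 in
lemma k5 : chkK 5 5 33 9 = true := by decide +kernel

set_option maxRecDepth 100000 in
lemma c5 : cover (L ++ E) T 5 33 = true := by decide +kernel

set_option maxRecDepth 100000 in
lemma k6 : chkK 5 6 10 5 = true := by decide +kernel

set_option maxRecDepth 100000 in
lemma c6 : cover (L ++ E) T 6 10 = true := by decide +kernel

set_option maxRecDepth 100000 in
lemma k7 : chkK 5 7 11 5 = true := by decide +kernel

set_option maxRecDepth 100000 in
lemma c7 : cover (L ++ E) T 7 11 = true := by decide +kernel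

set_option maxRecDepth 100000 in
lemma k8 : chkK 5 8 18 7 = true := by decide +kernel

set_option maxRecDepth 100000 in
lemma c8 : cover (L ++ E) T 8 18 = true := by decide +kernel

set_option maxRecDepth 100000 in
lemma k9 : chkK 5 9 18 7 = true := by decide +kernel

set_option maxRecDepth 100000 in
lemma c9 : cover (L ++ E) T 9 18 = true := by decide +kernel

set_option maxRecDepth 100000 in
lemma k10 : chkK 5 10 19 7 = true := by decide +kernel

set_option maxRecDepth 100000 in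
lemma c10 : cover (L ++ E) T 10 19 = true := by decide +kernel

/-- If `(j,k)` is universal then it is in the conjectured list `L` or in the explicit list `E`. -/
theorem result (j k : ℕ) (hj : 3 ≤ j) (hjk : j ≤ k)
    (hU : ∀ n : ℕ, ∃ (z : ℤ) (x y : ℕ),
      (n : ℤ) = polyNum 5 z + polyNum j x + polyNum k y) :
    (j, k) ∈ L ∨ (j, k) ∈ E := by
  have hU' : Universal 5 j k := hU
  have hlt : j ≤ 10 := by
    by_contra hc
    push Not at hc
    exact not_universal_of_chkJ (by norm_num) hj hjk hc big hU'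
  rw [← List.mem_append]
  interval_cases j
  · exact mem_of_universal (by norm_num) tab hj hjk k3 c3 hU'
  · exact mem_of_universal (by norm_num) tab hj hjk k4 c4 hU'
  · exact mem_of_universal (by norm_num) tab hj hjk k5 c5 hU'
  · exact mem_of_universal (by norm_num) tab hj hjk k6 c6 hU'
  · exact mem_of_universal (by norm_num) tab hj hjk k7 c7 hU'
  · exact mem_of_universal (by norm_num) tab hj hjk k8 c8 hU'
  · exact mem_of_universal (by norm_num) tab hj hjk k9 c9 hU'
  · exact mem_of_universal (by norm_num) tab hj hjk k10 c10 hU'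

end Pool.Agent.Results.MP_2ce53a_nt.OnlyIfUpToOne
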